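import Pool.Agent.helper7.OC.Defs

/-!
# Project OC (MP_ebc808_nt), module BB6a: primes `≡ 5 mod 8`
-/

set_option autoImplicit false

open Finset Filter Topology

namespace Pool.Agent.helper7.OC

namespace BB6a

open ArithmeticFunction (vonMangoldt)

/-- Summation by parts. -/
lemma abel_id (a g : ℕ → ℝ) (x y : ℕ) (hxy : x ≤ y) :
    ∑ n ∈ Ioc x y, a n * g n = (∑ n ∈ Ioc x y, a n) * g (y + 1)
      + ∑ n ∈ Ioc x y, (∑ i ∈ Ioc x n, a i) * (g n - g (n + 1)) := by
  induction y, hxy using Nat.le_induction with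
  | base => simp
  | succ y hxy ih =>
    rw [sum_Ioc_succ_top hxy, sum_Ioc_succ_top hxy (fun n => (∑ i ∈ Ioc x n, a i) * _), ih,
      sum_Ioc_succ_top hxy]
    ring

lemma abel_bound (a g : ℕ → ℝ) (A : ℝ) (x : ℕ) (ha : ∀ y, x ≤ y → |∑ n ∈ Ioc x y, a n| ≤ A)
    (hg : ∀ n, x < n → g (n + 1) ≤ g n) (hg0 : ∀ n, 0 ≤ g n) (y : ℕ) (hxy : x ≤ y) :
    |∑ n ∈ Ioc x y, a n * g n| ≤ A * g (x + 1) := by
  have hA : 0 ≤ A := (abs_nonneg _).trans (ha x le_rfl)
  rw [abel_id a g x y hxy]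
  have h1 : |(∑ n ∈ Ioc x y, a n) * g (y + 1)| ≤ A * g (y + 1) := by
    rw [abs_mul, abs_of_nonneg (hg0 _)]
    exact mul_le_mul_of_nonneg_right (ha y hxy) (hg0 _)
  have h2 : |∑ n ∈ Ioc x y, (∑ i ∈ Ioc x n, a i) * (g n - g (n + 1))|
      ≤ ∑ n ∈ Ioc x y, A * (g n - g (n + 1)) := by
    refine (abs_sum_le_sum_abs _ _).trans (sum_le_sum fun n hn => ?_)
    rw [mem_Ioc] at hn
    have := hg n hn.1
    rw [abs_mul, abs_of_nonneg (sub_nonneg.2 this)]
    exact mul_le_mul_of_nonneg_right (ha n hn.1.le) (by linarith)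
  have h3 : ∑ n ∈ Ioc x y, (g n - g (n + 1)) = g (x + 1) - g (y + 1) := by
    clear h1 h2
    induction y, hxy using Nat.le_induction with
    | base => simp
    | succ y hxy ih => rw [sum_Ioc_succ_top hxy, ih]; ring
  rw [← mul_sum, h3] at h2
  calc _ ≤ _ := abs_add_le _ _
    _ ≤ A * g (y + 1) + A * (g (x + 1) - g (y + 1)) := add_le_add h1 h2
    _ = _ := by ring

/-- real completely multiplicative functions with small sums -/
structure Chi (χ : ℕ → ℝ) : Prop where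
  mul : ∀ m n, χ (m * n) = χ m * χ n
  le : ∀ n, |χ n| ≤ 1
  sum : ∀ x : ℕ, |∑ n ∈ Ioc 0 x, χ n| ≤ 2
  eight : 1 / 2 ≤ ∑ n ∈ Ioc 0 8, χ n / n

lemma Chi.sum_Ioc {χ : ℕ → ℝ} (h : Chi χ) (x y : ℕ) (hxy : x ≤ y) :
    |∑ n ∈ Ioc x y, χ n| ≤ 4 := by
  have h1 := h.sum x
  have h2 := h.sum y
  have h3 := sum_Ioc_consecutive χ (Nat.zero_le x) hxy
  rw [abs_le] at *
  constructor <;> linarith [h1.1, h1.2, h2.1, h2.2]

lemma Chi.tail {χ : ℕ → ℝ} (h : Chi χ) (x y : ℕ) (hxy : x ≤ y) :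
    |∑ n ∈ Ioc x y, χ n / n| ≤ 4 / (x + 1) := by
  have := abel_bound χ (fun n => 1 / (n : ℝ)) 4 x (h.sum_Ioc x) (fun n hn => by
    have : (0 : ℝ) < n := by exact_mod_cast (by omega : 0 < n)
    push_cast
    exact one_div_le_one_div_of_le this (by linarith)) (fun n => by positivity) y hxy
  simp only [mul_one_div] at this
  push_cast at this
  exact this

/-- the value at one -/
lemma Chi.lim {χ : ℕ → ℝ} (h : Chi χ) : ∃ L : ℝ, 1 / 20 ≤ L ∧ ∀ x : ℕ,
    |∑ n ∈ Ioc 0 x, χ n / n - L| ≤ 4 / (x + 1) := by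
  have h1 : ∀ x y : ℕ, x ≤ y → |∑ n ∈ Ioc 0 x, χ n / n - ∑ n ∈ Ioc 0 y, χ n / n| ≤ 4 / (x + 1) := by
    intro x y hxy
    have h3 := sum_Ioc_consecutive (fun n => χ n / n) (Nat.zero_le x) hxy
    rw [← h3, sub_add_cancel_left, abs_neg]
    exact h.tail x y hxy
  have h2 : CauchySeq (fun x : ℕ => ∑ n ∈ Ioc 0 x, χ n / n) := by
    refine cauchySeq_of_le_tendsto_0' (fun x : ℕ => 4 / ((x : ℝ) + 1)) (fun x y hxy => ?_) ?_
    · rw [Real.dist_eq]; exact h1 x y hxy
    · exact Tendsto.div_atTop tendsto_const_nhds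
        (tendsto_atTop_add_const_right _ _ tendsto_natCast_atTop_atTop)
  obtain ⟨L, hL⟩ := cauchySeq_tendsto_of_complete h2
  have h4 : ∀ x : ℕ, |∑ n ∈ Ioc 0 x, χ n / n - L| ≤ 4 / (x + 1) := by
    intro x
    refine le_of_tendsto ((tendsto_const_nhds.sub hL).abs) ?_
    filter_upwards [eventually_ge_atTop x] with y hy using h1 x y hy
  refine ⟨L, ?_, h4⟩
  have h5 := h4 8
  have h6 := h.eight
  rw [abs_le] at h5
  norm_num at h5
  linarith [h5.2]

lemma logdiv_anti (n : ℕ) (hn : 2 < n) :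
    Real.log ((n + 1 : ℕ) : ℝ) / ((n + 1 : ℕ) : ℝ) ≤ Real.log n / n := by
  have h3 : Real.exp 1 ≤ n := by
    have := Real.exp_one_lt_d9
    have h : (3 : ℝ) ≤ n := by exact_mod_cast hn
    linarith
  refine Real.log_div_self_antitoneOn h3 ?_ ?_
  · show Real.exp 1 ≤ ((n + 1 : ℕ) : ℝ)
    push_cast; linarith
  · push_cast; linarith

lemma Chi.log_sum {χ : ℕ → ℝ} (h : Chi χ) (x : ℕ) :
    |∑ n ∈ Ioc 0 x, χ n * (Real.log n / n)| ≤ 4 := by
  have hl3 : Real.log 3 ≤ 2 := by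
    have := Real.log_le_sub_one_of_pos (x := 3) (by norm_num); linarith
  have hl2 : Real.log 2 ≤ 1 := by
    have := Real.log_le_sub_one_of_pos (x := 2) (by norm_num); linarith
  have hl20 : 0 ≤ Real.log 2 := Real.log_nonneg (by norm_num)
  have e2 : |χ 2 * (Real.log 2 / 2)| ≤ 1 := by
    rw [abs_mul, abs_of_nonneg (by positivity : 0 ≤ Real.log 2 / 2)]
    have := h.le 2
    nlinarith [abs_nonneg (χ 2)]
  rcases Nat.lt_or_ge x 2 with hx | hx
  · interval_cases x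
    · simp
    · rw [show Ioc 0 1 = {1} by rfl]; simp
  · have h1 := abel_bound χ (fun n => Real.log n / n) 4 2 (h.sum_Ioc 2)
      (fun n hn => logdiv_anti n hn) (fun n => by positivity) x hx
    have h3 := sum_Ioc_consecutive (fun n => χ n * (Real.log n / n)) (Nat.zero_le 2) hx
    have h4 : ∑ n ∈ Ioc 0 2, χ n * (Real.log n / n) = χ 2 * (Real.log 2 / 2) := by
      rw [show Ioc 0 2 = {1, 2} by rfl, sum_pair (by norm_num)]; simp
    rw [← h3, h4]
    norm_num at h1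
    have := abs_add_le (χ 2 * (Real.log 2 / 2)) (∑ n ∈ Ioc 2 x, χ n * (Real.log n / n))
    have h5 : 4 * (Real.log 3 / 3) ≤ 8 / 3 := by linarith
    linarith

/-- Mertens for a nonprincipal character. -/
lemma Chi.mertens {χ : ℕ → ℝ} (h : Chi χ) (N : ℕ) :
    |∑ n ∈ Ioc 0 N, χ n * (vonMangoldt n / n)| ≤ 600 := by
  rcases Nat.eq_zero_or_pos N with rfl | hN
  · simp
  have hN0 : (0 : ℝ) < N := by exact_mod_cast hN
  obtain ⟨L, hL0, hL⟩ := h.lim
  let f : ArithmeticFunction ℝ := ⟨fun n => χ n * (vonMangoldt n / n), by simp⟩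
  let g : ArithmeticFunction ℝ := ⟨fun n => χ n / n, by simp⟩
  have hfg : ∀ n, (f * g) n = χ n * (Real.log n / n) := by
    intro n
    rcases Nat.eq_zero_or_pos n with rfl | hn
    · simp
    rw [ArithmeticFunction.mul_apply]
    have h1 : ∀ p ∈ n.divisorsAntidiagonal, f p.1 * g p.2 = χ n / n * vonMangoldt p.1 := by
      intro p hp
      obtain ⟨hp1, hp2⟩ := Nat.mem_divisorsAntidiagonal.1 hp
      have h3 : (p.1 : ℝ) ≠ 0 := by
        rintro h
        have h' : p.1 = 0 := by exact_mod_cast h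
        rw [h', zero_mul] at hp1; exact hp2 hp1.symm
      have h4 : (p.2 : ℝ) ≠ 0 := by
        rintro h
        have h' : p.2 = 0 := by exact_mod_cast h
        rw [h', mul_zero] at hp1; exact hp2 hp1.symm
      show χ p.1 * (vonMangoldt p.1 / p.1) * (χ p.2 / p.2) = _
      rw [← hp1, h.mul]
      push_cast
      field_simp
    rw [sum_congr rfl h1, ← mul_sum, Nat.sum_divisorsAntidiagonal (fun d _ => vonMangoldt d),
      ArithmeticFunction.vonMangoldt_sum]
    ring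
  have h1 := ArithmeticFunction.sum_Ioc_mul_eq_sum_sum f g N
  simp_rw [hfg] at h1
  have h2 := h.log_sum N
  rw [h1] at h2
  have h3 : ∑ n ∈ Ioc 0 N, f n * ∑ m ∈ Ioc 0 (N / n), g m
      = L * ∑ n ∈ Ioc 0 N, χ n * (vonMangoldt n / n)
        + ∑ n ∈ Ioc 0 N, f n * (∑ m ∈ Ioc 0 (N / n), g m - L) := by
    rw [mul_sum, ← sum_add_distrib]
    refine sum_congr rfl fun n _ => ?_
    show χ n * (vonMangoldt n / n) * _ = L * (χ n * (vonMangoldt n / n))
      + χ n * (vonMangoldt n / n) * _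
    ring
  have h4 : |∑ n ∈ Ioc 0 N, f n * (∑ m ∈ Ioc 0 (N / n), g m - L)| ≤ 24 := by
    have e1 : ∀ n ∈ Ioc 0 N, |f n * (∑ m ∈ Ioc 0 (N / n), g m - L)| ≤ 4 / N * vonMangoldt n := by
      intro n hn
      rw [mem_Ioc] at hn
      have hn0 : (0 : ℝ) < n := by exact_mod_cast hn.1
      have hΛ : 0 ≤ vonMangoldt n := ArithmeticFunction.vonMangoldt_nonneg
      rw [abs_mul]
      have e2 : |f n| ≤ vonMangoldt n / n := by
        show |χ n * (vonMangoldt n / n)| ≤ _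
        rw [abs_mul, abs_of_nonneg (by positivity : 0 ≤ vonMangoldt n / n)]
        exact mul_le_of_le_one_left (by positivity) (h.le n)
      have e3 : |∑ m ∈ Ioc 0 (N / n), g m - L| ≤ 4 * n / N := by
        refine (hL (N / n)).trans ?_
        rw [div_le_div_iff₀ (by positivity) hN0]
        have e4 : (N : ℝ) ≤ n * (((N / n : ℕ) : ℝ) + 1) := by
          have := Nat.lt_mul_div_succ N hn.1
          exact_mod_cast this.le
        calc (4 : ℝ) * N ≤ 4 * (n * (((N / n : ℕ) : ℝ) + 1)) := by gcongr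
          _ = _ := by ring
      calc |f n| * |∑ m ∈ Ioc 0 (N / n), g m - L| ≤ vonMangoldt n / n * (4 * n / N) := by gcongr
        _ = _ := by field_simp
    have e5 := (abs_sum_le_sum_abs (fun n => f n * (∑ m ∈ Ioc 0 (N / n), g m - L)) (Ioc 0 N)).trans
      (sum_le_sum e1)
    rw [← mul_sum] at e5
    have e6 : ∑ n ∈ Ioc 0 N, vonMangoldt n ≤ (Real.log 4 + 4) * N := by
      have := Chebyshev.psi_le_const_mul_self (x := (N : ℝ)) hN0.le
      rwa [Chebyshev.psi, Nat.floor_natCast] at this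
    have e7 : Real.log 4 ≤ 2 := by
      have : Real.log 4 = 2 * Real.log 2 := by
        rw [show (4 : ℝ) = 2 ^ 2 by norm_num, Real.log_pow]; norm_num
      rw [this]
      have := Real.log_two_lt_d9
      linarith
    calc _ ≤ _ := e5
      _ ≤ 4 / N * ((Real.log 4 + 4) * N) := by gcongr
      _ = 4 * (Real.log 4 + 4) := by field_simp
      _ ≤ 24 := by linarith
  rw [h3] at h2
  set T := ∑ n ∈ Ioc 0 N, χ n * (vonMangoldt n / n) with hT
  have h5 : |L * T| ≤ 28 := by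
    have := abs_sub (L * T + ∑ n ∈ Ioc 0 N, f n * (∑ m ∈ Ioc 0 (N / n), g m - L))
      (∑ n ∈ Ioc 0 N, f n * (∑ m ∈ Ioc 0 (N / n), g m - L))
    rw [add_sub_cancel_right] at this
    linarith
  rw [abs_mul, abs_of_pos (by linarith : 0 < L)] at h5
  have h6 : 1 / 20 * |T| ≤ L * |T| := mul_le_mul_of_nonneg_right hL0 (abs_nonneg _)
  linarith

lemma log_four_le : Real.log 4 ≤ 2 := by
  have : Real.log 4 = 2 * Real.log 2 := by
    rw [show (4 : ℝ) = 2 ^ 2 by norm_num, Real.log_pow]; norm_num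
  rw [this]
  have := Real.log_two_lt_d9
  linarith

lemma psi_le (N : ℕ) : ∑ n ∈ Ioc 0 N, vonMangoldt n ≤ 6 * N := by
  have := Chebyshev.psi_le_const_mul_self (x := (N : ℝ)) (by positivity)
  rw [Chebyshev.psi, Nat.floor_natCast] at this
  have h4 := log_four_le
  have h5 : (0 : ℝ) ≤ N := by positivity
  nlinarith

lemma sum_log (N : ℕ) : ∑ n ∈ Ioc 0 N, Real.log n = ∑ n ∈ Ioc 0 N, vonMangoldt n * ((N / n : ℕ) : ℝ) := by
  have h := ArithmeticFunction.sum_Ioc_mul_zeta_eq_sum vonMangoldt N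
  rw [ArithmeticFunction.vonMangoldt_mul_zeta] at h
  exact h

lemma log_factorial (N : ℕ) : ∑ n ∈ Ioc 0 N, Real.log n = Real.log (N.factorial : ℝ) := by
  induction N with
  | zero => simp
  | succ N ih =>
    rw [sum_Ioc_succ_top (Nat.zero_le _), ih, Nat.factorial_succ]
    push_cast
    rw [Real.log_mul (by positivity) (by exact_mod_cast N.factorial_ne_zero)]
    ring

lemma log_factorial_ge (N : ℕ) (hN : 1 ≤ N) : N * Real.log N - N ≤ Real.log (N.factorial : ℝ) := by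
  have hN0 : (0 : ℝ) < N := by exact_mod_cast hN
  have h := Real.pow_div_factorial_le_exp (N : ℝ) hN0.le N
  have hf : (0 : ℝ) < (N.factorial : ℝ) := by exact_mod_cast N.factorial_pos
  have h1 := Real.log_le_log (by positivity) h
  rw [Real.log_div (by positivity) hf.ne', Real.log_pow, Real.log_exp] at h1
  linarith

lemma log_factorial_le (N : ℕ) : Real.log (N.factorial : ℝ) ≤ N * Real.log N := by
  rcases Nat.eq_zero_or_pos N with rfl | hN
  · simp
  have h : (N.factorial : ℝ) ≤ (N : ℝ) ^ N := by exact_mod_cast Nat.factorial_le_pow N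
  have hf : (0 : ℝ) < (N.factorial : ℝ) := by exact_mod_cast N.factorial_pos
  have h1 := Real.log_le_log hf h
  rwa [Real.log_pow] at h1

/-- Mertens -/
lemma mertens (N : ℕ) (hN : 1 ≤ N) : Real.log N - 1 ≤ ∑ n ∈ Ioc 0 N, vonMangoldt n / n ∧
    ∑ n ∈ Ioc 0 N, vonMangoldt n / n ≤ Real.log N + 6 := by
  have hN0 : (0 : ℝ) < N := by exact_mod_cast hN
  have h1 := sum_log N
  rw [log_factorial] at h1
  have h2 := log_factorial_ge N hN
  have h3 := log_factorial_le N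
  have h4 : ∑ n ∈ Ioc 0 N, vonMangoldt n * ((N / n : ℕ) : ℝ) ≤ N * ∑ n ∈ Ioc 0 N, vonMangoldt n / n := by
    rw [mul_sum]
    refine sum_le_sum fun n hn => ?_
    have hΛ : 0 ≤ vonMangoldt n := ArithmeticFunction.vonMangoldt_nonneg
    have e : ((N / n : ℕ) : ℝ) ≤ N / n := Nat.cast_div_le
    calc vonMangoldt n * ((N / n : ℕ) : ℝ) ≤ vonMangoldt n * (N / n) := by gcongr
      _ = _ := by ring
  have h5 : N * ∑ n ∈ Ioc 0 N, vonMangoldt n / n
      ≤ ∑ n ∈ Ioc 0 N, vonMangoldt n * ((N / n : ℕ) : ℝ) + ∑ n ∈ Ioc 0 N, vonMangoldt n := by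
    rw [mul_sum, ← sum_add_distrib]
    refine sum_le_sum fun n hn => ?_
    rw [mem_Ioc] at hn
    have hn0 : (0 : ℝ) < n := by exact_mod_cast hn.1
    have hΛ : 0 ≤ vonMangoldt n := ArithmeticFunction.vonMangoldt_nonneg
    have e4 : (N : ℝ) / n ≤ ((N / n : ℕ) : ℝ) + 1 := by
      rw [div_le_iff₀ hn0]
      have := Nat.lt_mul_div_succ N hn.1
      calc (N : ℝ) ≤ ((n * (N / n + 1) : ℕ) : ℝ) := by exact_mod_cast this.le
        _ = _ := by push_cast; ring
    calc N * (vonMangoldt n / n) = vonMangoldt n * (N / n) := by ring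
      _ ≤ vonMangoldt n * (((N / n : ℕ) : ℝ) + 1) := by gcongr
      _ = _ := by ring
  have h6 := psi_le N
  constructor
  · have : N * (Real.log N - 1) ≤ N * ∑ n ∈ Ioc 0 N, vonMangoldt n / n := by
      calc N * (Real.log N - 1) = N * Real.log N - N := by ring
        _ ≤ _ := by linarith
    exact le_of_mul_le_mul_left this hN0
  · have : N * ∑ n ∈ Ioc 0 N, vonMangoldt n / n ≤ N * (Real.log N + 6) := by
      calc N * ∑ n ∈ Ioc 0 N, vonMangoldt n / n ≤ N * Real.log N + 6 * N := by linarith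
        _ = _ := by ring
    exact le_of_mul_le_mul_left this hN0

/-- the sum over primes in `(V, W]` -/
noncomputable def T (f : ℕ → ℝ) (V W : ℕ) : ℝ := ∑ p ∈ PA V W, f p * (Real.log p / p)

lemma T_approx (f : ℕ → ℝ) (hf : ∀ n, |f n| ≤ 1) (V W : ℕ) (hV : 1 ≤ V) (hVW : V ≤ W) :
    |∑ n ∈ Ioc 0 W, f n * (vonMangoldt n / n) - ∑ n ∈ Ioc 0 V, f n * (vonMangoldt n / n) - T f V W|
      ≤ 2 * √(W : ℝ) * Real.log W / V := by
  have hV0 : (0 : ℝ) < V := by exact_mod_cast hV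
  have h3 := sum_Ioc_consecutive (fun n => f n * (vonMangoldt n / n)) (Nat.zero_le V) hVW
  rw [← h3, add_sub_cancel_left]
  have h4 := sum_filter_add_sum_filter_not (Ioc V W) Nat.Prime (fun n => f n * (vonMangoldt n / n))
  have h5 : ∑ n ∈ Ioc V W with n.Prime, f n * (vonMangoldt n / n) = T f V W := by
    rw [T, PA]
    refine sum_congr rfl fun p hp => ?_
    rw [mem_filter] at hp
    rw [ArithmeticFunction.vonMangoldt_apply_prime hp.2]
  rw [← h4, h5, add_sub_cancel_left]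
  have h6 : |∑ n ∈ Ioc V W with ¬ n.Prime, f n * (vonMangoldt n / n)|
      ≤ ∑ n ∈ Ioc V W with ¬ n.Prime, vonMangoldt n / V := by
    refine (abs_sum_le_sum_abs _ _).trans (sum_le_sum fun n hn => ?_)
    rw [mem_filter, mem_Ioc] at hn
    have hΛ : 0 ≤ vonMangoldt n := ArithmeticFunction.vonMangoldt_nonneg
    have hn0 : (V : ℝ) ≤ n := by exact_mod_cast hn.1.1.le
    rw [abs_mul, abs_of_nonneg (by positivity : 0 ≤ vonMangoldt n / n)]
    calc |f n| * (vonMangoldt n / n) ≤ 1 * (vonMangoldt n / V) := by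
          gcongr
          exact hf n
      _ = _ := one_mul _
  have h7 : ∑ n ∈ Ioc V W with ¬ n.Prime, vonMangoldt n ≤ 2 * √(W : ℝ) * Real.log W := by
    have e1 := Chebyshev.psi_sub_theta_eq_sum_not_prime (W : ℝ)
    have e2 := Chebyshev.psi_sub_theta_le (x := (W : ℝ)) (by exact_mod_cast hV.trans hVW)
    rw [e1, Nat.floor_natCast] at e2
    refine le_trans (sum_le_sum_of_subset_of_nonneg ?_ fun n _ _ => ArithmeticFunction.vonMangoldt_nonneg) e2
    intro n hn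
    rw [mem_filter, mem_Ioc] at hn ⊢
    exact ⟨⟨by omega, hn.1.2⟩, hn.2⟩
  rw [← sum_div] at h6
  exact h6.trans (by gcongr)

/-- function of period 8 given by a table -/
noncomputable def tab (f : ℕ → ℤ) (n : ℕ) : ℝ := (f (n % 8) : ℝ)

lemma tab_sum (f : ℕ → ℤ) (h8 : ∑ a ∈ range 8, f a = 0) (q r : ℕ) :
    ∑ n ∈ Ioc 0 (8 * q + r), f (n % 8) = ∑ n ∈ Ioc 0 r, f (n % 8) := by
  induction q with
  | zero => simp
  | succ q ih =>
    rw [← ih, show 8 * (q + 1) + r = 8 * q + r + 1 + 1 + 1 + 1 + 1 + 1 + 1 + 1 by ring]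
    generalize 8 * q + r = x
    rw [sum_Ioc_succ_top (by omega), sum_Ioc_succ_top (by omega), sum_Ioc_succ_top (by omega),
      sum_Ioc_succ_top (by omega), sum_Ioc_succ_top (by omega), sum_Ioc_succ_top (by omega),
      sum_Ioc_succ_top (by omega), sum_Ioc_succ_top (by omega)]
    simp only [sum_range_succ, sum_range_zero, zero_add] at h8
    have hx : x % 8 < 8 := Nat.mod_lt _ (by norm_num)
    have e : ∀ i, (x + i) % 8 = (x % 8 + i) % 8 := fun i => by omega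
    simp only [Nat.add_assoc, Nat.reduceAdd]
    rw [e 1, e 2, e 3, e 4, e 5, e 6, e 7, e 8]
    generalize x % 8 = y at hx
    interval_cases y <;> simp only [Nat.reduceAdd, Nat.reduceMod] <;> linarith

lemma tab_chi (f : ℕ → ℤ) (hm : ∀ a < 8, ∀ b < 8, f (a * b % 8) = f a * f b)
    (hl : ∀ a < 8, |f a| ≤ 1) (h8 : ∑ a ∈ range 8, f a = 0)
    (hs : ∀ a < 8, |∑ n ∈ Ioc 0 a, f (n % 8)| ≤ 2)
    (he : 1 / 2 ≤ ∑ n ∈ Ioc 0 8, tab f n / n) : Chi (tab f) where
  mul m n := by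
    rw [tab, tab, tab, Nat.mul_mod, hm _ (Nat.mod_lt _ (by norm_num)) _ (Nat.mod_lt _ (by norm_num))]
    push_cast; rfl
  le n := by
    have := hl (n % 8) (Nat.mod_lt _ (by norm_num))
    rw [tab]
    exact_mod_cast this
  sum x := by
    have h1 := tab_sum f h8 (x / 8) (x % 8)
    rw [Nat.div_add_mod] at h1
    have h2 := hs (x % 8) (Nat.mod_lt _ (by norm_num))
    rw [← h1] at h2
    have h3 : ∑ n ∈ Ioc 0 x, tab f n = ((∑ n ∈ Ioc 0 x, f (n % 8) : ℤ) : ℝ) := by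
      push_cast; rfl
    rw [h3]
    exact_mod_cast h2
  eight := he

/-- the three tables -/
def f4 : ℕ → ℤ := fun n => if n = 1 ∨ n = 5 then 1 else if n = 3 ∨ n = 7 then -1 else 0

def f8 : ℕ → ℤ := fun n => if n = 1 ∨ n = 7 then 1 else if n = 3 ∨ n = 5 then -1 else 0

def g8 : ℕ → ℤ := fun n => if n = 1 ∨ n = 3 then 1 else if n = 5 ∨ n = 7 then -1 else 0

lemma chi_f4 : Chi (tab f4) := by
  refine tab_chi f4 (by decide) (by decide) (by decide) (by decide) ?_
  rw [show Ioc 0 8 = {1, 2, 3, 4, 5, 6, 7, 8} by rfl]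
  norm_num [tab, f4]

lemma chi_f8 : Chi (tab f8) := by
  refine tab_chi f8 (by decide) (by decide) (by decide) (by decide) ?_
  rw [show Ioc 0 8 = {1, 2, 3, 4, 5, 6, 7, 8} by rfl]
  norm_num [tab, f8]

lemma chi_g8 : Chi (tab g8) := by
  refine tab_chi g8 (by decide) (by decide) (by decide) (by decide) ?_
  rw [show Ioc 0 8 = {1, 2, 3, 4, 5, 6, 7, 8} by rfl]
  norm_num [tab, g8]

lemma T_five (V W : ℕ) (hV : 2 ≤ V) :
    4 * ∑ p ∈ P5 V W, Real.log p / p = T (fun _ => 1) V W - T (tab f8) V W + T (tab f4) V W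
      - T (tab g8) V W := by
  unfold T
  rw [← sum_sub_distrib, ← sum_add_distrib, ← sum_sub_distrib, mul_sum]
  have h1 : P5 V W = (PA V W).filter fun p => p % 8 = 5 := by
    ext p; simp only [P5, PA, mem_filter, and_assoc]
  rw [h1, sum_filter]
  refine sum_congr rfl fun p hp => ?_
  rw [PA, mem_filter, mem_Ioc] at hp
  have h2 : p % 2 = 1 := by
    rcases hp.2.eq_two_or_odd with h | h
    · omega
    · exact h
  have h3 : p % 8 = 1 ∨ p % 8 = 3 ∨ p % 8 = 5 ∨ p % 8 = 7 := by omega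
  rcases h3 with h | h | h | h
  all_goals
    simp [tab, f4, f8, g8, h]
    try ring

/-- the error term is small -/
lemma delta_le (C₁ V : ℕ) (hC : 1 ≤ C₁) (hV : 4096 * C₁ ^ 3 ≤ V) :
    2 * √((C₁ * V : ℕ) : ℝ) * Real.log ((C₁ * V : ℕ) : ℝ) / V ≤ 1 := by
  have hC3 : 1 ≤ C₁ ^ 3 := Nat.one_le_pow _ _ hC
  have hV0 : (0 : ℝ) < V := by exact_mod_cast (by omega : 0 < V)
  have hC0 : (0 : ℝ) < C₁ := by exact_mod_cast hC
  set W : ℝ := ((C₁ * V : ℕ) : ℝ) with hW
  have hW' : W = C₁ * V := by rw [hW]; push_cast; ring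
  have hW0 : 0 < W := by rw [hW']; positivity
  set s := √(√W) with hs
  have hs0 : 0 < s := by rw [hs]; positivity
  have h1 : √W = s ^ 2 := by rw [hs, Real.sq_sqrt (by positivity)]
  have h2 : W = s ^ 4 := by
    rw [show s ^ 4 = (s ^ 2) ^ 2 by ring, ← h1, Real.sq_sqrt hW0.le]
  have h3 : Real.log W ≤ 4 * s := by
    rw [h2, Real.log_pow]
    have := Real.log_le_sub_one_of_pos hs0
    push_cast
    linarith
  have h4 : 8 * C₁ ≤ s := by
    have : (8 * (C₁ : ℝ)) ^ 4 ≤ s ^ 4 := by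
      rw [← h2, hW']
      have h5 : (4096 : ℝ) * C₁ ^ 3 ≤ V := by exact_mod_cast hV
      calc (8 * (C₁ : ℝ)) ^ 4 = (C₁ : ℝ) * (4096 * (C₁ : ℝ) ^ 3) := by ring
        _ ≤ (C₁ : ℝ) * (V : ℝ) := by gcongr
    exact le_of_pow_le_pow_left₀ (by norm_num) hs0.le this
  rw [div_le_one hV0]
  have h6 : C₁ * (2 * √W * Real.log W) ≤ C₁ * V := by
    rw [← hW', h1]
    calc C₁ * (2 * s ^ 2 * Real.log W) ≤ C₁ * (2 * s ^ 2 * (4 * s)) := by gcongr
      _ = (8 * C₁) * s ^ 3 := by ring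
      _ ≤ s * s ^ 3 := by gcongr
      _ = W := by rw [h2]; ring
  exact le_of_mul_le_mul_left h6 hC0

end BB6a

open BB6a in
/-- BB6a: primes `≡ 5 mod 8` (Mertens for characters mod 8) -/
theorem primes5 : ∃ (C₁ : ℕ) (c : ℝ) (V₁ : ℕ), 2 ≤ C₁ ∧ 0 < c ∧ ∀ V : ℕ, V₁ ≤ V →
    c * V / Real.log V ≤ (P5 V (C₁ * V)).card := by
  obtain ⟨C₁, hC₁⟩ := exists_nat_ge (Real.exp 3620)
  have h4 : (4 : ℝ) ≤ Real.exp 3620 := by
    have := Real.add_one_le_exp (3620 : ℝ); linarith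
  have hC2 : 2 ≤ C₁ := by
    have : (2 : ℝ) ≤ C₁ := by linarith
    exact_mod_cast this
  have hlC : 3620 ≤ Real.log C₁ := by
    rw [← Real.log_exp 3620]
    exact Real.log_le_log (Real.exp_pos _) hC₁
  refine ⟨C₁, 1 / 2, 4096 * C₁ ^ 3, hC2, by norm_num, fun V hV => ?_⟩
  have hC3 : C₁ ≤ C₁ ^ 3 := Nat.le_self_pow (by norm_num) _
  have hVC : C₁ ≤ V := by omega
  have hV2 : 2 ≤ V := by omega
  have hV0 : (0 : ℝ) < V := by exact_mod_cast (by omega : 0 < V)
  have hlV : 0 < Real.log V := Real.log_pos (by exact_mod_cast (by omega : 1 < V))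
  set W := C₁ * V with hW
  have hVW : V ≤ W := Nat.le_mul_of_pos_left V (by omega)
  have hlW : Real.log W = Real.log C₁ + Real.log V := by
    rw [hW]; push_cast
    rw [Real.log_mul (by exact_mod_cast (by omega : C₁ ≠ 0)) hV0.ne']
  have hδ := delta_le C₁ V (by omega) hV
  rw [← hW] at hδ
  -- the principal part
  have t1 : Real.log C₁ - 8 ≤ T (fun _ => 1) V W := by
    have a1 := T_approx (fun _ => 1) (fun _ => by simp) V W (by omega) hVW
    have a2 := (mertens W (by omega)).1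
    have a3 := (mertens V (by omega)).2
    simp only [one_mul] at a1
    have a4 := (abs_le.1 (a1.trans hδ)).2
    linarith
  have t2 : ∀ χ : ℕ → ℝ, Chi χ → |T χ V W| ≤ 1201 := by
    intro χ hχ
    have a1 := (T_approx χ hχ.le V W (by omega) hVW).trans hδ
    have a2 := hχ.mertens W
    have a3 := hχ.mertens V
    rw [abs_le] at *
    constructor <;> linarith [a1.1, a1.2, a2.1, a2.2, a3.1, a3.2]
  have t3 := T_five V W hV2
  have t4 := abs_le.1 (t2 _ chi_f4)
  have t5 := abs_le.1 (t2 _ chi_f8)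
  have t6 := abs_le.1 (t2 _ chi_g8)
  have t7 : 1 ≤ ∑ p ∈ P5 V W, Real.log p / p := by linarith [t4.1, t5.2, t6.2]
  have t8 : ∑ p ∈ P5 V W, Real.log p / p ≤ ∑ p ∈ P5 V W, Real.log W / V := by
    refine sum_le_sum fun p hp => ?_
    rw [P5, mem_filter, mem_Ioc] at hp
    have hp0 : (0 : ℝ) < p := by exact_mod_cast hp.2.1.pos
    have h1 : Real.log p ≤ Real.log W := Real.log_le_log hp0 (by exact_mod_cast hp.1.2)
    have h2 : 0 ≤ Real.log W := by rw [hlW]; linarith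
    have h3 : (V : ℝ) ≤ p := by exact_mod_cast hp.1.1.le
    gcongr
  rw [sum_const, nsmul_eq_mul] at t8
  have t9 : Real.log W ≤ 2 * Real.log V := by
    rw [hlW]
    have : Real.log C₁ ≤ Real.log V :=
      Real.log_le_log (by exact_mod_cast (by omega : 0 < C₁)) (by exact_mod_cast hVC)
    linarith
  have t10 : (1 : ℝ) ≤ (P5 V W).card * (2 * Real.log V / V) := by
    calc (1 : ℝ) ≤ (P5 V W).card * (Real.log W / V) := t7.trans t8
      _ ≤ _ := by gcongr
  rw [div_le_iff₀ hlV]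
  rw [← mul_div_assoc, le_div_iff₀ hV0] at t10
  linarith

end Pool.Agent.helper7.OC
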